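import Pool.Agent.H111R5.CP.Stmts

set_option autoImplicit false

open MeasureTheory ProbabilityTheory Filter Finset

namespace Pool.Agent.H111R5.CP

theorem frozen_eq (hPath : TaskPath) (β : ℝ) (N : ℕ) (w : ℕ → (Fin 3 → ℤ) → ℝ) :
    Real.log (((6 : ℝ) ^ N)⁻¹ *
              Finset.sum Finset.univ (fun σ : Fin N → Fin 3 × Bool =>
                Real.exp (Finset.sum (Finset.Icc 1 N) (fun n =>
                  β * w n (Finset.sum (Finset.univ.filter (fun k : Fin N => k.val < n))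
                      (fun k => (Pi.single (σ k).1 (if (σ k).2 then (1 : ℤ) else -1) : Fin 3 → ℤ)))
                    - β ^ 2 / 2)))) = LW β N w := by
  unfold LW W
  rw [← hPath]
  unfold Wp Vb pos stp
  simp only [zero_add]

theorem final (hH : TaskH) (hG : TaskG) (hGE : TaskGE) (hGood : TaskGood) (hPath : TaskPath)
    (hES : TaskES) (hInt : TaskInt) (hVar : TaskVar) (hSup : TaskSup) (hHardy : TaskHardy)
    (hMom : TaskMom) (hAS : TaskAS) (hLim : TaskLim) (hZero : TaskZero) :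
    ¬ (∀ (h : (Fin 3 → ℤ) → ℝ),
    (∃ M : ℝ, ∀ x, |h x| ≤ M) →
    (∀ x, h (-x) = h x) →
    (∀ (s : Finset (Fin 3 → ℤ)) (a : (Fin 3 → ℤ) → ℝ),
        0 ≤ Finset.sum s (fun x => Finset.sum s (fun y => a x * a y * h (x - y)))) →
    h 0 = 1 →
    Tendsto (fun x : Fin 3 → ℤ => h x * Finset.sum Finset.univ (fun i : Fin 3 => ((x i : ℝ)) ^ 2))
      cofinite (nhds 1) →
    ∀ (Ω : Type) [MeasurableSpace Ω] (P : Measure Ω) [IsProbabilityMeasure P]
      (ω : ℕ → (Fin 3 → ℤ) → Ω → ℝ),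
      (∀ n x, Measurable (ω n x)) →
      (∀ (s : Finset (ℕ × (Fin 3 → ℤ))) (a : ℕ × (Fin 3 → ℤ) → ℝ),
        P.map (fun w => Finset.sum s (fun i => a i * ω i.1 i.2 w)) =
          gaussianReal 0 (Real.toNNReal
            (Finset.sum s (fun i => Finset.sum s (fun j =>
              a i * a j * (if i.1 = j.1 then h (i.2 - j.2) else 0)))))) →
      ∀ p : ℝ → ℝ,
        (∀ β : ℝ, 0 < β → Filter.Eventually (fun w =>
          Tendsto
            (fun N : ℕ => Real.log (((6 : ℝ) ^ N)⁻¹ *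
              Finset.sum Finset.univ (fun σ : Fin N → Fin 3 × Bool =>
                Real.exp (Finset.sum (Finset.Icc 1 N) (fun n =>
                  β * ω n (Finset.sum (Finset.univ.filter (fun k : Fin N => k.val < n))
                      (fun k => (Pi.single (σ k).1 (if (σ k).2 then (1 : ℤ) else -1) : Fin 3 → ℤ))) w
                    - β ^ 2 / 2)))) / (N : ℝ))
            atTop (nhds (p β))) (ae P)) →
        ∃ c : ℝ, 0 < c ∧
          Tendsto (fun β : ℝ => Real.log (-p β) * β ^ 2) (nhdsWithin 0 (Set.Ioi 0)) (nhds (-c))) := by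
  intro hcon
  obtain ⟨h0, hsym, hbd, hpsd, htend⟩ := hH
  have hH : TaskH := ⟨h0, hsym, hbd, hpsd, htend⟩
  obtain ⟨μ, hμ, hlin⟩ := hG (fun x y => hh (x - y)) (fun x y => by rw [← hsym, neg_sub]) hpsd
  have good := hGood hH μ hμ hlin
  have hPP : IsProbabilityMeasure (PP μ) := by unfold PP; infer_instance
  have hv := hVar hES hPath hInt μ good
  have hl := hLim hSup hPath hInt μ good
  choose p hp0 hp using hl
  classical
  let q : ℝ → ℝ := fun β => if h : 0 < β then p β h else 0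
  obtain ⟨c, hc, hc2⟩ := hcon hh ⟨1, fun x => by
      rw [abs_of_nonneg (hbd x).1]; exact (hbd x).2.1⟩ hsym hpsd h0 htend
    (ℕ → (Fin 3 → ℤ) → ℝ) (PP μ) (fun n x w => w n x)
    (fun n x => by fun_prop) (hGE μ (fun x y => hh (x - y)) hμ hlin hpsd) q (by
      intro β hβ
      have h1 := hAS hPath hInt μ good β hβ (hv β hβ) (p β hβ) (hp β hβ)
      have hq : q β = p β hβ := by simp only [q, hβ, dif_pos]
      rw [hq]
      filter_upwards [h1] with w hw
      refine hw.congr ?_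
      intro N
      rw [frozen_eq hPath])
  obtain ⟨β₀, C, hβ₀, hC, hmom⟩ := hMom hH hHardy hInt μ good
  have hzero : ∀ β : ℝ, 0 < β → β ≤ β₀ → q β = 0 := by
    intro β hβ hβ2
    have hq : q β = p β hβ := by simp only [q, hβ, dif_pos]
    rw [hq]
    obtain ⟨C', hC', hvar⟩ := hv β hβ
    refine le_antisymm (hp0 β hβ) ?_
    refine hZero hInt μ good β (max C C') hβ (lt_max_of_lt_left hC) ?_ ?_ (p β hβ) (hp β hβ)
    · intro N hN
      exact (hmom β hβ hβ2 N hN).trans
        (mul_le_mul_of_nonneg_right (le_max_left _ _) (Real.sqrt_nonneg _))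
    · intro N
      exact (hvar N).trans (mul_le_mul_of_nonneg_right (le_max_right _ _) (Nat.cast_nonneg _))
  have hev : (fun β : ℝ => Real.log (-q β) * β ^ 2) =ᶠ[nhdsWithin 0 (Set.Ioi 0)] fun _ => 0 := by
    have : Set.Ioc (0 : ℝ) β₀ ∈ nhdsWithin (0 : ℝ) (Set.Ioi 0) := Ioc_mem_nhdsGT hβ₀
    filter_upwards [this] with β hβ
    rw [hzero β hβ.1 hβ.2]
    simp
  have h2 : Tendsto (fun β : ℝ => Real.log (-q β) * β ^ 2) (nhdsWithin 0 (Set.Ioi 0)) (nhds 0) :=
    tendsto_const_nhds.congr' hev.symm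
  have h3 := tendsto_nhds_unique hc2 h2
  linarith

end Pool.Agent.H111R5.CP
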