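import Mathlib

/-! Project H111-CP (MP_1e2dfa_pr, frozen S19200): for the directed polymer in dimension three in a
Gaussian environment with critical spatial correlation `h(x) ~ |x|^(-2)` the free energy vanishes
for all small `β > 0` (the second moment of the partition function grows at most like `√N` by a
discrete Hardy inequality), so the conjectured asymptotics `log (-p β) ~ -c β^(-2)` fail.
Definitions and the statements of the tasks. -/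

set_option autoImplicit false

open MeasureTheory ProbabilityTheory Filter Finset

namespace Pool.Agent.H111R5.CP

/-- the steps of the walk -/
def stp (e : Fin 3 × Bool) : Fin 3 → ℤ := Pi.single e.1 (if e.2 then (1 : ℤ) else -1)

/-- position after `n` steps -/
def pos {N : ℕ} (σ : Fin N → Fin 3 × Bool) (n : ℕ) : Fin 3 → ℤ :=
  ∑ k ∈ univ.filter (fun k : Fin N => k.val < n), stp (σ k)

/-- partition function (sum over paths) for a potential `V` -/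
noncomputable def Wp (N : ℕ) (V : ℕ → (Fin 3 → ℤ) → ℝ) (x : Fin 3 → ℤ) : ℝ :=
  ((6 : ℝ) ^ N)⁻¹ * ∑ σ : Fin N → Fin 3 × Bool, Real.exp (∑ n ∈ Icc 1 N, V n (x + pos σ n))

/-- the same by recursion on the first step -/
noncomputable def Wr : ℕ → (ℕ → (Fin 3 → ℤ) → ℝ) → (Fin 3 → ℤ) → ℝ
  | 0, _, _ => 1
  | N + 1, V, x => (1 / 6) * ∑ e : Fin 3 × Bool,
      Real.exp (V 1 (x + stp e)) * Wr N (fun n => V (n + 1)) (x + stp e)

/-- the potential at inverse temperature `β` in the environment `w` -/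
noncomputable def Vb (β : ℝ) (w : ℕ → (Fin 3 → ℤ) → ℝ) (n : ℕ) (x : Fin 3 → ℤ) : ℝ :=
  β * w n x - β ^ 2 / 2

/-- normalised partition function started from `x` -/
noncomputable def W (β : ℝ) (N : ℕ) (x : Fin 3 → ℤ) (w : ℕ → (Fin 3 → ℤ) → ℝ) : ℝ := Wr N (Vb β w) x

/-- its logarithm, started from the origin -/
noncomputable def LW (β : ℝ) (N : ℕ) (w : ℕ → (Fin 3 → ℤ) → ℝ) : ℝ := Real.log (W β N 0 w)

/-- law of the environment: independent slices with law `μ` -/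
noncomputable def PP (μ : Measure ((Fin 3 → ℤ) → ℝ)) : Measure (ℕ → (Fin 3 → ℤ) → ℝ) :=
  Measure.infinitePi (fun _ : ℕ => μ)

/-- squared Euclidean norm -/
noncomputable def nsq (x : Fin 3 → ℤ) : ℝ := ∑ i : Fin 3, ((x i : ℝ)) ^ 2

/-- the correlation `h(x) = (1 - exp (-|x|²)) / |x|²`, `h(0) = 1` -/
noncomputable def hh (x : Fin 3 → ℤ) : ℝ := ∫ t in (0 : ℝ)..1, Real.exp (-(t * nsq x))

/-- all finite linear combinations of the field are centred Gaussian with covariance `c` -/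
def GLin (μ : Measure ((Fin 3 → ℤ) → ℝ)) (c : (Fin 3 → ℤ) → (Fin 3 → ℤ) → ℝ) : Prop :=
  ∀ (s : Finset (Fin 3 → ℤ)) (a : (Fin 3 → ℤ) → ℝ),
    μ.map (fun ω => ∑ x ∈ s, a x * ω x) =
      gaussianReal 0 (Real.toNNReal (∑ x ∈ s, ∑ y ∈ s, a x * a y * c x y))

/-- what is used of the law of a slice -/
structure Good (μ : Measure ((Fin 3 → ℤ) → ℝ)) : Prop where
  prob : IsProbabilityMeasure μ
  inv : ∀ z : Fin 3 → ℤ, μ.map (fun s x => s (x + z)) = μ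
  int : ∀ (t : ℝ) (x : Fin 3 → ℤ), Integrable (fun s => Real.exp (t * s x)) μ
  mgf : ∀ (t : ℝ) (x : Fin 3 → ℤ), ∫ s, Real.exp (t * s x) ∂μ = Real.exp (t ^ 2 / 2)
  mgf2 : ∀ (t : ℝ) (x y : Fin 3 → ℤ),
    ∫ s, Real.exp (t * (s x + s y)) ∂μ = Real.exp (t ^ 2 * (1 + hh (x - y)))

/-! ### tasks -/

/-- TASK H: the correlation -/
def TaskH : Prop := hh 0 = 1 ∧ (∀ x, hh (-x) = hh x) ∧ (∀ x, 0 ≤ hh x ∧ hh x ≤ 1 ∧ hh x * nsq x ≤ 1) ∧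
  (∀ (s : Finset (Fin 3 → ℤ)) (a : (Fin 3 → ℤ) → ℝ), 0 ≤ ∑ x ∈ s, ∑ y ∈ s, a x * a y * hh (x - y)) ∧
  Tendsto (fun x : Fin 3 → ℤ => hh x * nsq x) cofinite (nhds 1)

/-- TASK G: Gaussian fields with a given covariance exist -/
def TaskG : Prop := ∀ c : (Fin 3 → ℤ) → (Fin 3 → ℤ) → ℝ, (∀ x y, c x y = c y x) →
  (∀ (s : Finset (Fin 3 → ℤ)) (a : (Fin 3 → ℤ) → ℝ), 0 ≤ ∑ x ∈ s, ∑ y ∈ s, a x * a y * c x y) →
  ∃ μ : Measure ((Fin 3 → ℤ) → ℝ), IsProbabilityMeasure μ ∧ GLin μ c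

/-- TASK GE: from one slice to the whole environment -/
def TaskGE : Prop := ∀ (μ : Measure ((Fin 3 → ℤ) → ℝ)) (c : (Fin 3 → ℤ) → (Fin 3 → ℤ) → ℝ),
  IsProbabilityMeasure μ → GLin μ c →
  (∀ (s : Finset (Fin 3 → ℤ)) (a : (Fin 3 → ℤ) → ℝ), 0 ≤ ∑ x ∈ s, ∑ y ∈ s, a x * a y * c x y) →
  ∀ (s : Finset (ℕ × (Fin 3 → ℤ))) (a : ℕ × (Fin 3 → ℤ) → ℝ),
    (PP μ).map (fun w => ∑ i ∈ s, a i * w i.1 i.2) =
      gaussianReal 0 (Real.toNNReal (∑ i ∈ s, ∑ j ∈ s, a i * a j * (if i.1 = j.1 then c i.2 j.2 else 0)))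

/-- TASK GOOD: translation invariance and exponential moments -/
def TaskGood : Prop := TaskH → ∀ μ : Measure ((Fin 3 → ℤ) → ℝ), IsProbabilityMeasure μ →
  GLin μ (fun x y => hh (x - y)) → Good μ

/-- TASK PATH: the two forms of the partition function agree -/
def TaskPath : Prop := ∀ (N : ℕ) (V : ℕ → (Fin 3 → ℤ) → ℝ) (x : Fin 3 → ℤ), Wp N V x = Wr N V x

/-- TASK ES: Efron-Stein inequality for independent coordinates -/
def TaskES : Prop := ∀ (S : Type) [MeasurableSpace S] (μ : Measure S) [IsProbabilityMeasure μ] (N : ℕ)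
  (f : (ℕ → S) → ℝ) (g : ℕ → (ℕ → S) → ℝ),
  (∀ w w' : ℕ → S, (∀ n ∈ Icc 1 N, w n = w' n) → f w = f w') →
  Measurable f → MemLp f 2 (Measure.infinitePi (fun _ : ℕ => μ)) →
  (∀ k ∈ Icc 1 N, Measurable (g k) ∧ MemLp (g k) 2 (Measure.infinitePi (fun _ : ℕ => μ)) ∧
    ∀ (w : ℕ → S) (s : S), g k (Function.update w k s) = g k w) →
  variance f (Measure.infinitePi (fun _ : ℕ => μ)) ≤
    ∑ k ∈ Icc 1 N, ∫ w, (f w - g k w) ^ 2 ∂(Measure.infinitePi (fun _ : ℕ => μ))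

/-- TASK INT: measurability and integrability; `W` has mean one -/
def TaskInt : Prop := ∀ μ : Measure ((Fin 3 → ℤ) → ℝ), Good μ → ∀ (β : ℝ) (N : ℕ),
  (∀ x, Measurable (W β N x)) ∧ (∀ x, MemLp (W β N x) 2 (PP μ)) ∧ (∀ x, ∫ w, W β N x w ∂(PP μ) = 1) ∧
  MemLp (LW β N) 2 (PP μ)

/-- TASK VAR: linear variance -/
def TaskVar : Prop := TaskES → TaskPath → TaskInt → ∀ μ : Measure ((Fin 3 → ℤ) → ℝ), Good μ →
  ∀ β : ℝ, 0 < β → ∃ C : ℝ, 0 ≤ C ∧ ∀ N : ℕ, variance (LW β N) (PP μ) ≤ C * N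

/-- TASK SUP: superadditivity of the mean -/
def TaskSup : Prop := TaskPath → TaskInt → ∀ μ : Measure ((Fin 3 → ℤ) → ℝ), Good μ → ∀ β : ℝ, 0 < β →
  ∀ N M : ℕ, ∫ w, LW β N w ∂(PP μ) + ∫ w, LW β M w ∂(PP μ) ≤ ∫ w, LW β (N + M) w ∂(PP μ)

/-- TASK HARDY: the supersolution -/
def TaskHardy : Prop := TaskH → ∃ K β₀ : ℝ, 1 ≤ K ∧ 0 < β₀ ∧ ∀ β : ℝ, 0 < β → β ≤ β₀ → ∀ z : Fin 3 → ℤ,
  (1 / 36) * ∑ e : Fin 3 × Bool, ∑ e' : Fin 3 × Bool, Real.exp (β ^ 2 * hh (z + stp e - stp e')) *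
    (K + nsq (z + stp e - stp e')) ^ (-(1 / 4) : ℝ) ≤ (K + nsq z) ^ (-(1 / 4) : ℝ)

/-- TASK MOM: the second moment -/
def TaskMom : Prop := TaskH → TaskHardy → TaskInt → ∀ μ : Measure ((Fin 3 → ℤ) → ℝ), Good μ →
  ∃ β₀ C : ℝ, 0 < β₀ ∧ 0 < C ∧ ∀ β : ℝ, 0 < β → β ≤ β₀ → ∀ N : ℕ, 1 ≤ N →
    ∫ w, (W β N 0 w) ^ 2 ∂(PP μ) ≤ C * √N

/-- TASK AS: almost sure convergence -/
def TaskAS : Prop := TaskPath → TaskInt → ∀ μ : Measure ((Fin 3 → ℤ) → ℝ), Good μ → ∀ β : ℝ, 0 < β →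
  (∃ C : ℝ, 0 ≤ C ∧ ∀ N : ℕ, variance (LW β N) (PP μ) ≤ C * N) → ∀ p : ℝ,
  Tendsto (fun N : ℕ => (∫ w, LW β N w ∂(PP μ)) / (N : ℝ)) atTop (nhds p) →
  ∀ᵐ w ∂(PP μ), Tendsto (fun N : ℕ => LW β N w / (N : ℝ)) atTop (nhds p)

/-- TASK LIM: the limit of the means exists and is nonpositive -/
def TaskLim : Prop := TaskSup → TaskPath → TaskInt → ∀ μ : Measure ((Fin 3 → ℤ) → ℝ), Good μ →
  ∀ β : ℝ, 0 < β → ∃ p : ℝ, p ≤ 0 ∧
    Tendsto (fun N : ℕ => (∫ w, LW β N w ∂(PP μ)) / (N : ℝ)) atTop (nhds p)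

/-- TASK ZERO: Paley-Zygmund against Chebyshev -/
def TaskZero : Prop := TaskInt → ∀ μ : Measure ((Fin 3 → ℤ) → ℝ), Good μ → ∀ β C : ℝ, 0 < β → 0 < C →
  (∀ N : ℕ, 1 ≤ N → ∫ w, (W β N 0 w) ^ 2 ∂(PP μ) ≤ C * √N) →
  (∀ N : ℕ, variance (LW β N) (PP μ) ≤ C * N) → ∀ p : ℝ,
  Tendsto (fun N : ℕ => (∫ w, LW β N w ∂(PP μ)) / (N : ℝ)) atTop (nhds p) → 0 ≤ p

end Pool.Agent.H111R5.CP
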