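import Pool.Agent.H111R5.CP.Stmts
import Pool.Agent.H111R5.CP.Lim

set_option autoImplicit false

open MeasureTheory ProbabilityTheory Filter Finset

namespace Pool.Agent.H111R5.CP

/-- Paley-Zygmund -/
theorem paley {Ω : Type} [MeasurableSpace Ω] (P : Measure Ω) [IsProbabilityMeasure P] (X : Ω → ℝ)
    (hX : Measurable X) (hpos : ∀ w, 0 < X w) (h2 : MemLp X 2 P) (h1 : ∫ w, X w ∂P = 1) (S : ℝ)
    (hS : 0 < S) (hS2 : ∫ w, (X w) ^ 2 ∂P ≤ S) : 1 / (4 * S) ≤ P.real {w | 1 / 2 ≤ X w} := by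
  have hA : MeasurableSet {w | 1 / 2 ≤ X w} := measurableSet_le measurable_const hX
  have hi : Integrable X P := h2.integrable (by norm_num)
  have hi2 : Integrable (fun w => (X w) ^ 2) P := h2.integrable_sq
  set t : ℝ := 1 / (2 * S) with ht
  have htpos : 0 < t := by positivity
  have hpt : ∀ w, X w ≤ 1 / 2 + (t * (X w) ^ 2 + Set.indicator {w | 1 / 2 ≤ X w} (fun _ => (1 : ℝ)) w / t) / 2 := by
    intro w
    by_cases hw : 1 / 2 ≤ X w
    · have : Set.indicator {w | 1 / 2 ≤ X w} (fun _ => (1 : ℝ)) w = 1 := by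
        rw [Set.indicator_of_mem]; exact hw
      rw [this]
      have h3 : X w ≤ (t * (X w) ^ 2 + 1 / t) / 2 := by
        have h4 : 0 ≤ (t * X w - 1) ^ 2 / t := by positivity
        have h5 : (t * X w - 1) ^ 2 / t = t * (X w) ^ 2 - 2 * X w + 1 / t := by
          field_simp
          ring
        linarith
      linarith
    · have : Set.indicator {w | 1 / 2 ≤ X w} (fun _ => (1 : ℝ)) w = 0 := by
        rw [Set.indicator_of_notMem]; exact hw
      rw [this, zero_div]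
      push Not at hw
      have : 0 ≤ t * (X w) ^ 2 := by positivity
      linarith
  have hind : Integrable (Set.indicator {w | 1 / 2 ≤ X w} (fun _ => (1 : ℝ))) P :=
    (integrable_const (1 : ℝ)).indicator hA
  have hF : Integrable (fun w => t * (X w) ^ 2) P := hi2.const_mul t
  have hG : Integrable (fun w => Set.indicator {w | 1 / 2 ≤ X w} (fun _ => (1 : ℝ)) w / t) P :=
    hind.div_const t
  have hFG : Integrable (fun w => (t * (X w) ^ 2 +
      Set.indicator {w | 1 / 2 ≤ X w} (fun _ => (1 : ℝ)) w / t) / 2) P := (hF.add hG).div_const 2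
  have hall : Integrable (fun w => 1 / 2 + (t * (X w) ^ 2 +
      Set.indicator {w | 1 / 2 ≤ X w} (fun _ => (1 : ℝ)) w / t) / 2) P :=
    (integrable_const (1 / 2 : ℝ)).add hFG
  have hint := integral_mono hi hall hpt
  have e1 : ∫ w, (1 / 2 + (t * (X w) ^ 2 + Set.indicator {w | 1 / 2 ≤ X w} (fun _ => (1 : ℝ)) w / t) / 2) ∂P =
      1 / 2 + (t * ∫ w, (X w) ^ 2 ∂P + P.real {w | 1 / 2 ≤ X w} / t) / 2 := by
    have a1 : ∫ w, (t * (X w) ^ 2 + Set.indicator {w | 1 / 2 ≤ X w} (fun _ => (1 : ℝ)) w / t) ∂P =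
        t * ∫ w, (X w) ^ 2 ∂P + P.real {w | 1 / 2 ≤ X w} / t := by
      rw [integral_add hF hG, integral_const_mul, integral_div, integral_indicator_const _ hA]
      simp
    have a2 : ∫ w, ((t * (X w) ^ 2 + Set.indicator {w | 1 / 2 ≤ X w} (fun _ => (1 : ℝ)) w / t) / 2) ∂P =
        (t * ∫ w, (X w) ^ 2 ∂P + P.real {w | 1 / 2 ≤ X w} / t) / 2 := by
      rw [integral_div, a1]
    rw [integral_add (integrable_const (1 / 2 : ℝ)) hFG, a2]
    simp
  have hint' : (1 : ℝ) ≤ 1 / 2 + (t * ∫ w, (X w) ^ 2 ∂P + P.real {w | 1 / 2 ≤ X w} / t) / 2 := by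
    have := hint
    rw [e1, h1] at this
    exact this
  have h6 : t * ∫ w, (X w) ^ 2 ∂P ≤ 1 / 2 := by
    calc t * ∫ w, (X w) ^ 2 ∂P ≤ t * S := by gcongr
      _ = 1 / 2 := by rw [ht]; field_simp
  have h7 : 1 / 2 ≤ P.real {w | 1 / 2 ≤ X w} / t := by linarith
  rw [le_div_iff₀ htpos] at h7
  calc 1 / (4 * S) = 1 / 2 * t := by rw [ht]; field_simp; norm_num
    _ ≤ _ := h7

theorem taskZero : TaskZero := by
  intro hInt μ good β C hβ hC hmom hvar p hp
  have hPP := isProb good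
  by_contra hneg
  push Not at hneg
  have hcast : Tendsto (fun N : ℕ => (N : ℝ)) atTop atTop := tendsto_natCast_atTop_atTop
  have hsq : Tendsto (fun N : ℕ => √(N : ℝ)) atTop atTop := Real.tendsto_sqrt_atTop.comp hcast
  have e1 : ∀ᶠ N : ℕ in atTop, (∫ w, LW β N w ∂(PP μ)) / (N : ℝ) ≤ p / 2 :=
    (hp.eventually (eventually_le_nhds (by linarith : p < p / 2)))
  have e2 : ∀ᶠ N : ℕ in atTop, 4 * Real.log 2 / (-p) ≤ (N : ℝ) := hcast.eventually_ge_atTop _
  have e3 : ∀ᶠ N : ℕ in atTop, 64 * C ^ 2 / p ^ 2 + 1 ≤ √(N : ℝ) := hsq.eventually_ge_atTop _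
  obtain ⟨N, h1, h2, h3, h4⟩ := (e1.and (e2.and (e3.and (eventually_ge_atTop 1)))).exists
  obtain ⟨hm, hW, hone, hL⟩ := hInt μ good β N
  have hNpos : (0 : ℝ) < N := by exact_mod_cast h4
  have hsN : 0 < √(N : ℝ) := Real.sqrt_pos.mpr hNpos
  have hnp : 0 < -p := by linarith
  have hpz := paley (PP μ) (W β N 0) (hm 0) (fun w => W_pos _ _ _ _) (hW 0) (hone 0) (C * √N)
    (by positivity) (hmom N h4)
  -- Chebyshev
  set a := ∫ w, LW β N w ∂(PP μ) with ha
  have ha1 : a ≤ p / 2 * N := by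
    rwa [div_le_iff₀ hNpos] at h1
  have hlog : Real.log 2 ≤ -p * N / 4 := by
    rw [div_le_iff₀ hnp] at h2
    linarith
  set c : ℝ := -p * N / 4 with hc
  have hcpos : 0 < c := by positivity
  have hcheb := meas_ge_le_variance_div_sq hL hcpos
  have hsub : {w | 1 / 2 ≤ W β N 0 w} ⊆ {w | c ≤ |LW β N w - ∫ w, LW β N w ∂(PP μ)|} := by
    intro w hw
    simp only [Set.mem_setOf_eq] at hw ⊢
    rw [← ha]
    have h5 : -Real.log 2 ≤ LW β N w := by
      unfold LW
      rw [← Real.log_inv]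
      apply Real.log_le_log (by norm_num)
      rw [← one_div]; exact hw
    refine le_trans ?_ (le_abs_self _)
    linarith
  have h6 : (PP μ).real {w | 1 / 2 ≤ W β N 0 w} ≤ variance (LW β N) (PP μ) / c ^ 2 := by
    have h7 : (PP μ) {w | 1 / 2 ≤ W β N 0 w} ≤ ENNReal.ofReal (variance (LW β N) (PP μ) / c ^ 2) :=
      (measure_mono hsub).trans hcheb
    unfold Measure.real
    apply ENNReal.toReal_le_of_le_ofReal _ h7
    exact div_nonneg (variance_nonneg _ _) (by positivity)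
  have h8 : variance (LW β N) (PP μ) / c ^ 2 ≤ C * N / c ^ 2 := by
    gcongr
    exact hvar N
  have h9 : 1 / (4 * (C * √N)) ≤ C * N / c ^ 2 := hpz.trans (h6.trans h8)
  have hpne : p ≠ 0 := hneg.ne
  have h10 : C * N / c ^ 2 = 16 * C / (p ^ 2 * N) := by
    rw [hc]; field_simp; try norm_num
  rw [h10] at h9
  have hss : √(N : ℝ) * √N = N := Real.mul_self_sqrt hNpos.le
  have hp2 : 0 < p ^ 2 := by nlinarith
  rw [div_le_div_iff₀ (by positivity) (by positivity)] at h9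
  have h11 : p ^ 2 * √(N : ℝ) ≤ 64 * C ^ 2 := by
    have h12 : p ^ 2 * √(N : ℝ) * √N ≤ 64 * C ^ 2 * √N := by
      calc p ^ 2 * √(N : ℝ) * √N = p ^ 2 * N := by rw [mul_assoc, hss]
        _ ≤ 16 * C * (4 * (C * √N)) := by linarith
        _ = 64 * C ^ 2 * √N := by ring
    exact le_of_mul_le_mul_right h12 hsN
  have h13 : 64 * C ^ 2 / p ^ 2 + 1 ≤ √(N : ℝ) := h3
  have h14 : √(N : ℝ) ≤ 64 * C ^ 2 / p ^ 2 := by
    rw [le_div_iff₀ hp2]; linarith
  linarith

end Pool.Agent.H111R5.CP
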